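import Pool.Agent.W393.VR.Base

set_option autoImplicit false

/-!
Project VR, part D: compatible subgroups of finite index.
-/

namespace Pool.Agent.W326.VR

open Pool.Agent.W393.VR

/-- The one-sided lemma. -/
theorem one_sided {P R : Type*} [Group P] [Group R] (hP : VRC P) (a : R →* P)
    (ha : Function.Injective a) (d0 : R) (hd0 : ¬ IsOfFinOrder d0) (L : Subgroup P)
    (hL : L.Normal) (hLf : L.FiniteIndex) (hLa : L.comap a ≤ Subgroup.zpowers d0) :
    ∃ k : ℕ, 0 < k ∧ ∀ T : ℕ, 0 < T → ∃ P1 : Subgroup P, P1.Normal ∧ P1.FiniteIndex ∧ P1 ≤ L ∧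
      P1.comap a = Subgroup.zpowers (d0 ^ (k * T)) := by
  classical
  set c := a d0 with hc
  have hcinf : ¬ IsOfFinOrder c := by
    rw [hc, ha.isOfFinOrder_iff]
    exact hd0
  have hcinj : Function.Injective (fun n : ℤ => c ^ n) :=
    injective_zpow_iff_not_isOfFinOrder.2 hcinf
  obtain ⟨K, hKf, hK, ρ, hρ1, hρ2⟩ := hP c
  -- the exponent
  have hex : ∀ x : K, ∃ e : ℤ, c ^ e = ρ x := fun x => Subgroup.mem_zpowers_iff.1 (hρ1 x)
  choose e he using hex
  have hemul : ∀ x y : K, e (x * y) = e x + e y := by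
    intro x y
    apply hcinj
    change c ^ _ = c ^ _
    rw [he, map_mul, zpow_add, he, he]
  let E : K →* Multiplicative ℤ := MonoidHom.mk' (fun x => Multiplicative.ofAdd (e x)) (by
    intro x y
    rw [hemul, ofAdd_add])
  have hEe : ∀ x, E x = Multiplicative.ofAdd (e x) := fun x => rfl
  have hepow : ∀ (x : K) (n : ℕ), e (x ^ n) = n * e x := by
    intro x n
    have h := map_pow E x n
    rw [hEe, hEe, ← ofAdd_nsmul] at h
    have h2 := Multiplicative.ofAdd.injective h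
    rw [h2, nsmul_eq_mul]
  have hezpow : ∀ (x : K) (n : ℤ), e (x ^ n) = n * e x := by
    intro x n
    have h := map_zpow E x n
    rw [hEe, hEe, ← ofAdd_zsmul] at h
    have h2 := Multiplicative.ofAdd.injective h
    rw [h2, zsmul_eq_mul]
    simp
  set C : Subgroup P := K.normalCore ⊓ L with hC
  have hCn : C.Normal := by
    rw [hC]
    infer_instance
  have hCf : C.FiniteIndex := by
    rw [hC]
    infer_instance
  have hCK : C ≤ K := inf_le_left.trans K.normalCore_le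
  have hCL : C ≤ L := inf_le_right
  -- the exponent `k0`
  have hk0ex : ∃ k : ℕ, 0 < k ∧ c ^ k ∈ C := by
    obtain ⟨n, hn1, hn2⟩ := Subgroup.exists_pow_mem_of_index_ne_zero hCf.index_ne_zero c
    exact ⟨n, hn1, hn2.2⟩
  set k0 := Nat.find hk0ex with hk0
  obtain ⟨hk0p, hk0C⟩ := Nat.find_spec hk0ex
  rw [← hk0] at hk0p hk0C
  have hdvd : ∀ j : ℤ, c ^ j ∈ C → (k0 : ℤ) ∣ j := by
    intro j hj
    by_contra hnd
    have h1 : 0 < j % k0 := by
      rcases (Int.emod_nonneg j (by omega : (k0 : ℤ) ≠ 0)).lt_or_eq with h | h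
      · exact h
      · exact absurd (Int.dvd_of_emod_eq_zero h.symm) hnd
    have h2 : j % k0 < k0 := Int.emod_lt_of_pos j (by omega)
    have h3 : c ^ (j % k0) ∈ C := by
      have h4 : j % k0 = j - k0 * (j / k0) := by
        have := Int.emod_add_mul_ediv j k0
        omega
      rw [h4, zpow_sub, zpow_mul]
      apply C.mul_mem hj
      apply C.inv_mem
      apply C.zpow_mem
      rw [zpow_natCast]
      exact hk0C
    have h5 : c ^ (j % k0).toNat ∈ C := by
      rw [← zpow_natCast, Int.toNat_of_nonneg h1.le]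
      exact h3
    have h6 := Nat.find_min' hk0ex ⟨by omega, h5⟩
    rw [← hk0] at h6
    omega
  -- the conjugates
  have hconj : ∀ (x : P) (n : ℕ), x * c ^ (k0 * n) * x⁻¹ ∈ C := by
    intro x n
    apply hCn.conj_mem
    rw [pow_mul]
    exact C.pow_mem hk0C n
  set r : P → ℤ := fun x => e ⟨x * c ^ (k0 * 1) * x⁻¹, hCK (hconj x 1)⟩ with hr
  have hr1 : r 1 = k0 := by
    rw [hr]
    apply hcinj
    change c ^ _ = c ^ _
    rw [he]
    have hmem : (1 : P) * c ^ (k0 * 1) * 1⁻¹ = c ^ k0 := by simp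
    have h2 := hρ2 ⟨1 * c ^ (k0 * 1) * 1⁻¹, hCK (hconj 1 1)⟩ (by
      change (1 : P) * c ^ (k0 * 1) * 1⁻¹ ∈ _
      rw [hmem]
      exact Subgroup.pow_mem _ (Subgroup.mem_zpowers c) k0)
    rw [h2]
    change (1 : P) * c ^ (k0 * 1) * 1⁻¹ = _
    rw [hmem, zpow_natCast]
  obtain ⟨g0, hg0⟩ := Int.subgroup_cyclic (AddSubgroup.closure (Set.range r))
  have hg0ne : g0 ≠ 0 := by
    rintro rfl
    have h1 : r 1 ∈ AddSubgroup.closure (Set.range r) := AddSubgroup.subset_closure ⟨1, rfl⟩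
    rw [hg0] at h1
    have h2 := AddSubgroup.mem_closure_singleton.1 h1
    obtain ⟨n, hn⟩ := h2
    rw [smul_zero, hr1] at hn
    omega
  have hgr : ∀ x, g0 ∣ r x := by
    intro x
    have h1 : r x ∈ AddSubgroup.closure (Set.range r) := AddSubgroup.subset_closure ⟨x, rfl⟩
    rw [hg0] at h1
    obtain ⟨n, hn⟩ := AddSubgroup.mem_closure_singleton.1 h1
    exact ⟨n, by rw [← hn, zsmul_eq_mul, mul_comm]; simp⟩
  have hgT : ∀ (t : ℤ) (m : ℤ), (∀ x, m ∣ t * r x) → m ∣ t * g0 := by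
    intro t m hm
    have h1 : g0 ∈ AddSubgroup.closure (Set.range r) := by
      rw [hg0]
      exact AddSubgroup.subset_closure rfl
    have h2 : ∀ u ∈ AddSubgroup.closure (Set.range r), m ∣ t * u := by
      intro u hu
      induction hu using AddSubgroup.closure_induction with
      | mem u hu =>
        obtain ⟨x, rfl⟩ := hu
        exact hm x
      | zero => simp
      | add u v _ _ hu hv =>
        rw [mul_add]
        exact dvd_add hu hv
      | neg u _ hu =>
        rw [mul_neg]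
        exact (dvd_neg).2 hu
    exact h2 g0 h1
  refine ⟨k0, hk0p, fun T hT => ?_⟩
  set N : ℕ := (g0 * T).natAbs with hN
  have hNpos : 0 < N := by
    rw [hN, Int.natAbs_pos]
    exact mul_ne_zero hg0ne (by omega)
  have hNdvd : ∀ u : ℤ, (N : ℤ) ∣ u ↔ g0 * T ∣ u := by
    intro u
    rw [hN]
    exact Int.natAbs_dvd
  have : NeZero N := ⟨by omega⟩
  let f : K →* Multiplicative (ZMod N) :=
    (AddMonoidHom.toMultiplicative (Int.castAddHom (ZMod N))).comp E
  have hf : ∀ x : K, f x = 1 ↔ (N : ℤ) ∣ e x := by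
    intro x
    have h1 : f x = Multiplicative.ofAdd ((e x : ℤ) : ZMod N) := rfl
    rw [h1, ofAdd_eq_one, ZMod.intCast_zmod_eq_zero_iff_dvd]
  have hfin : f.ker.FiniteIndex := inferInstance
  set D : Subgroup P := f.ker.map K.subtype ⊓ C with hD
  have hDf : D.FiniteIndex := by
    have h1 : (f.ker.map K.subtype).FiniteIndex := by
      constructor
      rw [Subgroup.index_map_subtype]
      exact mul_ne_zero hfin.index_ne_zero hKf.index_ne_zero
    rw [hD]
    infer_instance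
  have hDmem : ∀ y (hy : y ∈ K), y ∈ D ↔ y ∈ C ∧ g0 * T ∣ e ⟨y, hy⟩ := by
    intro y hy
    rw [hD, Subgroup.mem_inf, Subgroup.mem_map, and_comm]
    apply and_congr_right
    intro _
    rw [← hNdvd, ← hf]
    constructor
    · rintro ⟨z, hz, hzy⟩
      have : z = ⟨y, hy⟩ := Subtype.ext hzy
      rw [← this]
      exact hz
    · intro h
      exact ⟨⟨y, hy⟩, h, rfl⟩
  have hDC : D ≤ C := inf_le_right
  refine ⟨D.normalCore, D.normalCore_normal, Subgroup.finiteIndex_normalCore D,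
    D.normalCore_le.trans (hDC.trans hCL), ?_⟩
  have hrn : ∀ (x : P) (n : ℤ) (h : x * c ^ ((k0 : ℤ) * n) * x⁻¹ ∈ K),
      e ⟨x * c ^ ((k0 : ℤ) * n) * x⁻¹, h⟩ = n * r x := by
    intro x n h
    rw [hr]
    simp only
    rw [← hezpow]
    congr 1
    apply Subtype.ext
    rw [Subgroup.coe_zpow]
    simp only [mul_one]
    rw [conj_zpow, ← zpow_natCast, ← zpow_mul]
  apply le_antisymm
  · intro y hy
    have hy1 : a y ∈ D.normalCore := hy
    have hyD : a y ∈ D := D.normalCore_le hy1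
    obtain ⟨j, hj⟩ := Subgroup.mem_zpowers_iff.1 (hLa (show y ∈ L.comap a from hCL (hDC hyD)))
    have hcj : c ^ j = a y := by
      rw [hc, ← map_zpow, hj]
    obtain ⟨t, ht⟩ := hdvd j (by rw [hcj]; exact hDC hyD)
    have h1 : ∀ x, g0 * T ∣ t * r x := by
      intro x
      have h2 : x * a y * x⁻¹ ∈ D := by
        exact hy1 x
      rw [← hcj, ht] at h2
      have h3 := ((hDmem _ (hCK (hDC h2))).1 h2).2
      rwa [hrn] at h3
    have h2 := hgT t _ h1
    have h3 : (T : ℤ) ∣ t := by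
      rw [mul_comm t g0] at h2
      exact Int.dvd_of_mul_dvd_mul_left hg0ne h2
    obtain ⟨u, hu⟩ := h3
    rw [Subgroup.mem_zpowers_iff]
    refine ⟨u, ?_⟩
    rw [← hj, ht, hu, ← zpow_natCast, ← zpow_mul]
    congr 1
    push_cast
    ring
  · rw [Subgroup.zpowers_le]
    change a (d0 ^ (k0 * T)) ∈ D.normalCore
    rw [map_pow, ← hc]
    intro x
    change x * c ^ (k0 * T) * x⁻¹ ∈ D
    have h1 := hconj x T
    rw [hDmem _ (hCK h1)]
    refine ⟨h1, ?_⟩
    have h2 := hrn x T (by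
      have : c ^ ((k0 : ℤ) * (T : ℤ)) = c ^ (k0 * T) := by
        rw [← zpow_natCast]
        push_cast
        rfl
      rw [this]
      exact hCK h1)
    have h3 : e ⟨x * c ^ (k0 * T) * x⁻¹, hCK h1⟩ = T * r x := by
      rw [← h2]
      congr 1
      apply Subtype.ext
      simp only
      rw [← zpow_natCast]
      push_cast
      rfl
    rw [h3, mul_comm g0]
    exact mul_dvd_mul_left _ (hgr x)

theorem compat {P Q R : Type*} [Group P] [Group Q] [Group R] (hP : VRC P) (hQ : VRC Q)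
    (a : R →* P) (b : R →* Q) (ha : Function.Injective a) (hb : Function.Injective b) (d0 : R)
    (hd0 : ¬ IsOfFinOrder d0) (L : Subgroup P) (hL : L.Normal) (hLf : L.FiniteIndex)
    (hLa : L.comap a ≤ Subgroup.zpowers d0) (M : Subgroup Q) (hM : M.Normal)
    (hMf : M.FiniteIndex) (hMb : M.comap b ≤ Subgroup.zpowers d0) :
    ∃ (P1 : Subgroup P) (Q1 : Subgroup Q) (d : R), P1.Normal ∧ P1.FiniteIndex ∧ Q1.Normal ∧
      Q1.FiniteIndex ∧ P1 ≤ L ∧ Q1 ≤ M ∧ ¬ IsOfFinOrder d ∧ P1.comap a = Subgroup.zpowers d ∧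
      Q1.comap b = Subgroup.zpowers d := by
  obtain ⟨kP, hkP, h1⟩ := one_sided hP a ha d0 hd0 L hL hLf hLa
  obtain ⟨kQ, hkQ, h2⟩ := one_sided hQ b hb d0 hd0 M hM hMf hMb
  obtain ⟨P1, p1, p2, p3, p4⟩ := h1 kQ hkQ
  obtain ⟨Q1, q1, q2, q3, q4⟩ := h2 kP hkP
  refine ⟨P1, Q1, d0 ^ (kP * kQ), p1, p2, q1, q2, p3, q3, ?_, p4, ?_⟩
  · rw [isOfFinOrder_pow]
    rintro (h | h)
    · exact hd0 h
    · exact absurd h (Nat.mul_pos hkP hkQ).ne'
  · rw [q4, mul_comm]

end Pool.Agent.W326.VR
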